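import Pool.Agent.Helper79.GL4.GoalsA

set_option autoImplicit false
set_option linter.unusedVariables false

namespace Pool.Agent.Helper37.GL4P

open Module Submodule GL4

attribute [local instance] GL4.subAct

variable {F : Type} [Field F] {V : Type} [AddCommGroup V] [Module F V]

theorem pow_diff {s : V ≃ₗ[F] V} {N : Submodule F V} (hN : im s N = N) {x : V} {c : F}
    (h : s x - c • x ∈ N) (m : ℕ) : (s ^ m) x - c ^ m • x ∈ N := by
  induction m with
  | zero => simp
  | succ m ih =>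
    have h1 : s ((s ^ m) x - c ^ m • x) ∈ N := by
      rw [← hN]; exact apply_mem_im ih
    have h2 := N.add_mem h1 (N.smul_mem (c ^ m) h)
    have e : s ((s ^ m) x - c ^ m • x) + c ^ m • (s x - c • x) =
        (s ^ (m + 1)) x - c ^ (m + 1) • x := by
      rw [map_sub, map_smul, smul_sub, smul_smul, pow_succ' s m, LinearEquiv.mul_apply, pow_succ]
      abel
    rwa [e] at h2

/-- eigenvalues of elements of `p`-power order are trivial -/
theorem eig_one {p : ℕ} [hp : Fact p.Prime] [CharP F p] {s : V ≃ₗ[F] V} {k : ℕ}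
    (hs : s ^ p ^ k = 1) {N : Submodule F V} (hN : im s N = N) {x : V} (hx : x ∉ N) {c : F}
    (h : s x - c • x ∈ N) : c = 1 := by
  have h1 := pow_diff hN h (p ^ k)
  rw [hs] at h1
  have e : (1 : V ≃ₗ[F] V) x - c ^ p ^ k • x = (1 - c ^ p ^ k) • x := by
    rw [sub_smul, one_smul]; rfl
  rw [e] at h1
  by_cases h0 : 1 - c ^ p ^ k = 0
  · have h2 : (c - 1) ^ p ^ k = 0 := by
      rw [sub_pow_char_pow, one_pow]
      linear_combination -h0
    have h3 := pow_eq_zero_iff (n := p ^ k) (pow_pos hp.out.pos k).ne' |>.1 h2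
    exact sub_eq_zero.1 h3
  · exfalso
    apply hx
    have := N.smul_mem (1 - c ^ p ^ k)⁻¹ h1
    rwa [smul_smul, inv_mul_cancel₀ h0, one_smul] at this

theorem mt3 (h2 : BR2) (ht : TRV) (hs : SLG) : MT3 := by
  intro F _ _ V _ _ _ hn K hK
  left
  obtain ⟨-, hF, hA⟩ := h2 F V K (by omega) hK
  apply hs F V K
  apply ht F V K (by omega) hF
  haveI : Finite V := Module.finite_of_finite F
  obtain ⟨p, hpc⟩ := CharP.exists F
  haveI := Fintype.ofFinite F
  haveI hpf : Fact p.Prime := ⟨CharP.char_is_prime F p⟩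
  obtain ⟨e, -, hcard⟩ := FiniteField.card F p
  have hq : Nat.card F = p ^ (e : ℕ) := by rw [Nat.card_eq_fintype_card, hcard]
  -- a point
  obtain ⟨u, hu⟩ : ∃ u : V, u ≠ 0 := by
    haveI : Nontrivial V := Module.nontrivial_of_finrank_pos (R := F) (by omega)
    exact exists_ne 0
  set P : Submodule F V := F ∙ u with hP
  have hPt : Pt P := pt_span hu
  set KP : Subgroup (V ≃ₗ[F] V) := K ⊓ MulAction.stabilizer (V ≃ₗ[F] V) P with hKP
  have mem_KP : ∀ g, g ∈ KP ↔ g ∈ K ∧ im g P = P := fun g => Iff.rfl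
  -- hyperplanes not through the point
  set X : Set (Submodule F V) := {H | Hy H ∧ ¬ P ≤ H} with hX
  set B : Set (Submodule F V) := {H | Hy H ∧ P ≤ H} with hB
  have hBc : B.ncard = br (Nat.card F) 2 := by
    have := card_hys_ge (F := F) (V := V) P
    rw [hPt, hn] at this
    exact this
  have hXc : X.ncard = (Nat.card F) ^ 2 := by
    have h1 := card_hys_ge (F := F) (V := V) ⊥
    rw [finrank_bot, hn] at h1
    have h1' : ({H | Hy H ∧ ⊥ ≤ H} : Set (Submodule F V)).ncard = br (Nat.card F) 3 := h1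
    have h3 : X = {H | Hy H ∧ ⊥ ≤ H} \ B := by
      ext H
      constructor
      · rintro ⟨a, b⟩; exact ⟨⟨a, bot_le⟩, fun hc => b hc.2⟩
      · rintro ⟨⟨a, -⟩, b⟩; exact ⟨a, fun hc => b ⟨a, hc⟩⟩
    have h4 : B ⊆ {H | Hy H ∧ ⊥ ≤ H} := fun H hH => ⟨hH.1, bot_le⟩
    rw [h3, Set.ncard_sdiff h4 (Set.toFinite _), h1', hBc, br_succ]
    omega
  obtain ⟨v0, hv0⟩ : ∃ H0, H0 ∈ X := by
    have : 0 < X.ncard := by rw [hXc]; exact pow_pos Nat.card_pos 2
    exact (Set.ncard_pos (Set.toFinite _)).1 this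
  have horb : {y | ∃ g ∈ KP, g • v0 = y} = X := by
    ext y
    constructor
    · rintro ⟨g, hg, rfl⟩
      obtain ⟨h1, h3⟩ := (mem_KP g).1 hg
      refine ⟨hv0.1.im, fun hc => hv0.2 ?_⟩
      have hc' : P ≤ im g v0 := hc
      rw [← h3, im_le_im_iff] at hc'
      exact hc'
    · intro hy
      obtain ⟨g, hg, h3, h4⟩ := hA P v0 P y hPt hv0.1 hPt hy.1 hv0.2 hy.2
      exact ⟨g, (mem_KP g).2 ⟨hg, h3⟩, h4⟩
  have hdvd : p ^ (2 * (e : ℕ)) ∣ Nat.card KP := by
    have h1 := ncard_orbit KP v0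
    rw [horb, hXc, hq] at h1
    have h3 : p ^ (2 * (e : ℕ)) = (p ^ (e : ℕ)) ^ 2 := by rw [← pow_mul, mul_comm]
    rw [h3, h1]
    exact Subgroup.relIndex_dvd_card _ _
  obtain ⟨S, hS⟩ := exists_isSyl (p := p) KP
  have hScard : p ^ (2 * (e : ℕ)) ∣ Nat.card S := by
    have h1 := Subgroup.relIndex_mul_relIndex ⊥ S KP bot_le hS.1
    rw [Subgroup.relIndex_bot_left, Subgroup.relIndex_bot_left] at h1
    rw [← h1] at hdvd
    exact (Nat.Coprime.pow_left _ ((Nat.Prime.coprime_iff_not_dvd hpf.out).2 hS.2.2)).dvd_of_dvd_mul_right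
      hdvd
  have hlt : Nat.card F < Nat.card S := by
    have h1 : p ^ (2 * (e : ℕ)) ≤ Nat.card S := Nat.le_of_dvd Nat.card_pos hScard
    have h3 : 1 < p ^ (e : ℕ) := Nat.one_lt_pow e.pos.ne' hpf.out.one_lt
    rw [hq]
    have h4 : p ^ (2 * (e : ℕ)) = p ^ (e : ℕ) * p ^ (e : ℕ) := by rw [two_mul, pow_add]
    rw [h4] at h1
    nlinarith
  -- a fixed line
  have hBp : ¬ p ∣ B.ncard := by
    rw [hBc, br_succ, br_one, pow_one, hq]
    intro hd
    have h1 : p ∣ p ^ (e : ℕ) := dvd_pow_self p e.pos.ne'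
    exact hpf.out.one_lt.ne' (Nat.dvd_one.1 ((Nat.dvd_add_left h1).1 hd))
  obtain ⟨L, hL, hLfix⟩ := exists_fixed (p := p) hS.2.1 (X := B) (Set.toFinite _) (fun g hg x hx => by
    obtain ⟨h1, h3⟩ := (mem_KP g).1 (hS.1 hg)
    refine ⟨hx.1.im, ?_⟩
    have : im g P ≤ im g x := im_mono g hx.2
    rw [h3] at this
    exact this) hBp
  have hLfix' : ∀ g ∈ S, im g L = L := hLfix
  have hLd : finrank F L = 2 := by have := hL.1; rw [Hy, hn] at this; omega
  -- a basis
  obtain ⟨w, hwL, hwP⟩ : ∃ w ∈ L, w ∉ P := by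
    by_contra hc
    push Not at hc
    have := Submodule.finrank_mono (show L ≤ P from hc)
    rw [hPt, hLd] at this
    omega
  obtain ⟨v, hv⟩ : ∃ v, v ∉ L := by
    by_contra hc
    push Not at hc
    exact hL.1.ne_top (eq_top_iff.2 fun x _ => hc x)
  have hLdec : ∀ l ∈ L, ∃ b : F, l - b • w ∈ P := by
    have h1 : P ⊔ F ∙ w = L := by
      apply Submodule.eq_of_le_of_finrank_eq
      · exact sup_le hL.2 (by rwa [span_singleton_le_iff_mem])
      · rw [finrank_sup_pt (pt_span (by rintro rfl; exact hwP (zero_mem _)))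
          (by rwa [span_singleton_le_iff_mem]), hPt, hLd]
    intro l hl
    rw [← h1, mem_sup] at hl
    obtain ⟨a, ha, b, hb, rfl⟩ := hl
    obtain ⟨c, rfl⟩ := mem_span_singleton.1 hb
    exact ⟨c, by rwa [add_sub_cancel_right]⟩
  have hVdec : ∀ x : V, ∃ c : F, x - c • v ∈ L := by
    have h1 : L ⊔ F ∙ v = ⊤ := hL.1.sup_pt (by rwa [span_singleton_le_iff_mem])
    intro x
    have hx : x ∈ L ⊔ F ∙ v := by rw [h1]; exact mem_top
    obtain ⟨a, ha, b, hb, rfl⟩ := mem_sup.1 hx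
    obtain ⟨c, rfl⟩ := mem_span_singleton.1 hb
    exact ⟨c, by rwa [add_sub_cancel_right]⟩
  have hord : ∀ s ∈ S, ∃ k, s ^ p ^ k = 1 := by
    intro s hsS
    obtain ⟨k, hk⟩ := hS.2.1 ⟨s, hsS⟩
    exact ⟨k, by simpa using congrArg Subtype.val hk⟩
  -- unipotence
  have hsu : ∀ s ∈ S, s u = u := by
    intro s hsS
    obtain ⟨k, hk⟩ := hord s hsS
    have h1 : im s P = P := ((mem_KP s).1 (hS.1 hsS)).2
    have h3 : s u ∈ P := by rw [← h1]; exact apply_mem_im (mem_span_singleton_self u)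
    obtain ⟨c, hc⟩ := mem_span_singleton.1 h3
    have h4 := eig_one (p := p) hk (N := ⊥) (im_bot s) (x := u) (c := c)
      (by rw [mem_bot]; exact hu) (by rw [hc, sub_self]; exact zero_mem _)
    rw [← hc, h4, one_smul]
  have hsw : ∀ s ∈ S, s w - w ∈ P := by
    intro s hsS
    obtain ⟨k, hk⟩ := hord s hsS
    have h1 : im s P = P := ((mem_KP s).1 (hS.1 hsS)).2
    have h3 : s w ∈ L := by rw [← hLfix' s hsS]; exact apply_mem_im hwL
    obtain ⟨c, hc⟩ := hLdec _ h3
    have h4 := eig_one (p := p) hk h1 hwP hc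
    rwa [h4, one_smul] at hc
  have hsv : ∀ s ∈ S, s v - v ∈ L := by
    intro s hsS
    obtain ⟨k, hk⟩ := hord s hsS
    obtain ⟨c, hc⟩ := hVdec (s v)
    have h4 := eig_one (p := p) hk (hLfix' s hsS) hv hc
    rwa [h4, one_smul] at hc
  choose b hb using fun s : S => hLdec _ (hsv s s.2)
  obtain ⟨s, s', hne, hbb⟩ : ∃ s s' : S, s ≠ s' ∧ b s = b s' := by
    by_contra hc
    push Not at hc
    have hinj : Function.Injective b := fun s s' h => by
      by_contra hne
      exact hc s s' hne h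
    have := Nat.card_le_card_of_injective b hinj
    omega
  have hss : im ((s : V ≃ₗ[F] V)⁻¹) P = P := by
    have := ((mem_KP _).1 (hS.1 (S.inv_mem s.2))).2
    exact this
  refine ⟨(s : V ≃ₗ[F] V)⁻¹ * s', K.mul_mem (K.inv_mem ((mem_KP _).1 (hS.1 s.2)).1)
    ((mem_KP _).1 (hS.1 s'.2)).1, ?_, ?_⟩
  · intro h1
    apply hne
    apply Subtype.ext
    exact (inv_mul_eq_one.1 h1)
  · set t : V ≃ₗ[F] V := (s : V ≃ₗ[F] V)⁻¹ * s' with htdef
    have htS : t ∈ S := S.mul_mem (S.inv_mem s.2) s'.2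
    have htv : t v - v ∈ P := by
      have h1 : (s' : V ≃ₗ[F] V) v - (s : V ≃ₗ[F] V) v ∈ P := by
        have := P.sub_mem (hb s') (hb s)
        rw [hbb] at this
        have e : (s' : V ≃ₗ[F] V) v - v - b s' • w - ((s : V ≃ₗ[F] V) v - v - b s' • w) =
            (s' : V ≃ₗ[F] V) v - (s : V ≃ₗ[F] V) v := by abel
        rwa [e] at this
      have h3 : (s : V ≃ₗ[F] V)⁻¹ ((s' : V ≃ₗ[F] V) v - (s : V ≃ₗ[F] V) v) ∈ P := by
        have h5 : (s : V ≃ₗ[F] V)⁻¹ ((s' : V ≃ₗ[F] V) v - (s : V ≃ₗ[F] V) v) ∈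
            im ((s : V ≃ₗ[F] V)⁻¹) P := apply_mem_im h1
        rwa [hss] at h5
      rw [map_sub] at h3
      have e : (s : V ≃ₗ[F] V)⁻¹ ((s : V ≃ₗ[F] V) v) = v := (s : V ≃ₗ[F] V).symm_apply_apply v
      rw [e] at h3
      exact h3
    have hall : ∀ x, t x - x ∈ P := by
      intro x
      obtain ⟨c, hc⟩ := hVdec x
      obtain ⟨d, hd⟩ := hLdec _ hc
      obtain ⟨a, ha⟩ := mem_span_singleton.1 hd
      have e : x = a • u + d • w + c • v := by rw [ha]; abel
      rw [e, map_add, map_add, map_smul, map_smul, map_smul, hsu t htS]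
      have e2 : a • u + d • t w + c • t v - (a • u + d • w + c • v) =
          d • (t w - w) + c • (t v - v) := by
        rw [smul_sub, smul_sub]; abel
      rw [e2]
      exact P.add_mem (P.smul_mem _ (hsw t htS)) (P.smul_mem _ htv)
    let A : V →ₗ[F] P := LinearMap.codRestrict P ((t : V →ₗ[F] V) - LinearMap.id) hall
    refine ⟨(LinearEquiv.toSpanNonzeroSingleton F V u hu).symm.toLinearMap.comp A, u, ?_, ?_⟩
    · have h1 : A u = 0 := by
        apply Subtype.ext
        show t u - u = 0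
        rw [hsu t htS, sub_self]
      show (LinearEquiv.toSpanNonzeroSingleton F V u hu).symm (A u) = 0
      rw [h1, map_zero]
    · intro x
      have h1 : (((LinearEquiv.toSpanNonzeroSingleton F V u hu).symm (A x)) • u : V) = t x - x := by
        have h3 := (LinearEquiv.toSpanNonzeroSingleton F V u hu).apply_symm_apply (A x)
        have h4 := congrArg Subtype.val h3
        rw [LinearEquiv.toSpanNonzeroSingleton_apply] at h4
        exact h4
      show t x = x + ((LinearEquiv.toSpanNonzeroSingleton F V u hu).symm (A x)) • u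
      rw [h1]; abel

end Pool.Agent.Helper37.GL4P
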